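import Pool.Agent.W910.FC.Collapse
import Pool.Agent.W910.Hull.Main

/-!
# Martin's axiom with `𝔠 > ℵ₁` implies that there is no monotone Borel hull operation on the Lebesgue
measurable sets

* Martin's axiom (for every preordered set with the countable chain condition and every family of
  fewer than `𝔠` dense subsets) together with `𝔠 ≠ ℵ₁` implies that there is no monotone Borel hull
  operation on the Lebesgue measurable sets of reals.
* There is a preordered set of forcing conditions all of whose conditions force `MA(ℵ₁)` and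
  `𝔠 ≤ ℵ₂` and that `ω₁` is preserved; and `MA(ℵ₁)` together with `𝔠 ≤ ℵ₂` is equivalent to Martin's
  axiom together with `𝔠 = ℵ₂`.

So ZFC with Martin's axiom does not prove that a monotone Borel hull operation on the Lebesgue
measurable sets exists.

The forcing language is the one of `Pool.Agent.Helper669.Forcing`: a sentence is the set of the
conditions which force it, `fnot`, `fand`, `fall` are the primitive connectives and `fimp`, `fex`
are defined from them classically; a name for a subset of a ground model set `X` is a map sending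
`x : X` to a set of conditions, and `meets N` says that the generic filter meets `N`. The sentence
`MartinHolds P X` is the translation into the forcing language of the proposition `MartinFor X`
(both are in `Pool.Agent.W684.FM.Defs`), which is Martin's axiom for preorders with underlying set
`X` and `X`-indexed families of dense sets; `ContinuumLe P Y` says that in the extension there is a
map from `Y` onto the set of all functions from the natural numbers to themselves.
-/

set_option autoImplicit false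

namespace Pool.Agent.Results.MP_97b08f_lc.NoHullUnderMA

open Cardinal MeasureTheory Pool.Agent.Helper669.Forcing Pool.Agent.W684.FM

/-- The countable chain condition: every set of pairwise incompatible conditions is countable
(a smaller condition is stronger). -/
def IsCCC (P : Type) [Preorder P] : Prop :=
  ∀ A : Set P, (∀ p ∈ A, ∀ q ∈ A, p ≠ q → ¬ ∃ r : P, r ≤ p ∧ r ≤ q) → A.Countable

/-- Martin's axiom: for every nonempty preordered set `P` with the countable chain condition and
every family of fewer than `2^ℵ₀` dense subsets of `P` there is a filter in `P` which meets each of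
them. -/
def MartinAxiom : Prop :=
  ∀ (P : Type) [Preorder P] [Nonempty P], IsCCC P →
    ∀ 𝒟 : Set (Set P), #𝒟 < 𝔠 → (∀ D ∈ 𝒟, ∀ p : P, ∃ q ∈ D, q ≤ p) →
      ∃ G : Set P, G.Nonempty ∧ (∀ p ∈ G, ∀ q : P, p ≤ q → q ∈ G) ∧
        (∀ p ∈ G, ∀ q ∈ G, ∃ r ∈ G, r ≤ p ∧ r ≤ q) ∧ ∀ D ∈ 𝒟, (G ∩ D).Nonempty

/-- The Lebesgue measurable sets of reals (measurable for the completed measure). -/
def LebesgueSets : Set (Set ℝ) := {A | NullMeasurableSet A volume}

/-- There is a monotone Borel hull operation on the family `F`. -/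
def HasMonotoneBorelHull (F : Set (Set ℝ)) : Prop :=
  ∃ ψ : Set ℝ → Set ℝ,
    (∀ A ∈ F, MeasurableSet[borel ℝ] (ψ A) ∧ A ⊆ ψ A ∧ volume (ψ A \ A) = 0) ∧
    ∀ A ∈ F, ∀ B ∈ F, A ⊆ B → ψ A ⊆ ψ B

/-- Martin's axiom for `ℵ₁` dense sets refutes the continuum hypothesis. -/
theorem aleph_one_lt (hMA : Pool.Agent.W684.MartinAxiomAleph1) : (ℵ₁ : Cardinal.{0}) < 𝔠 := by
  by_contra h
  have h1 : #ℝ ≤ (ℵ₁ : Cardinal.{0}) := by
    rw [mk_real]
    exact not_lt.1 h
  have h2 := Pool.Agent.W910.Hull.null_iUnion hMA h1 (fun x : ℝ => ({x} : Set ℝ)) (by simp)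
  have h3 : (⋃ x : ℝ, ({x} : Set ℝ)) = Set.univ := by
    ext x
    simp
  rw [h3] at h2
  simp at h2

theorem martin_of {h : (𝔠 : Cardinal.{0}) ≤ ℵ_ 2} (hMA : Pool.Agent.W684.MartinAxiomAleph1) :
    MartinAxiom := by
  intro P _ _ hP 𝒟 h𝒟 hd
  refine hMA P hP 𝒟 ?_ hd
  have h1 : #𝒟 < Order.succ (ℵ₁ : Cardinal.{0}) := by
    have h2 : Order.succ (ℵ₁ : Cardinal.{0}) = ℵ_ 2 := by
      rw [succ_aleph]
      norm_num
    rw [h2]
    exact h𝒟.trans_le h
  exact Order.lt_succ_iff.1 h1

theorem aleph_one_of (hMA : MartinAxiom) (h : (ℵ₁ : Cardinal.{0}) < 𝔠) :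
    Pool.Agent.W684.MartinAxiomAleph1 := by
  intro P _ _ hP 𝒟 h𝒟 hd
  exact hMA P hP 𝒟 (h𝒟.trans_lt h) hd

/-- There is a preordered set `P` of forcing conditions such that every condition forces that `ω₁`
is preserved, that Martin's axiom for `ℵ₁` dense sets holds and that the continuum is at most `ℵ₂`.
These axioms are equivalent to Martin's axiom together with `𝔠 = ℵ₂`. Martin's axiom and `𝔠 ≠ ℵ₁`
imply that there is no monotone Borel hull operation on the Lebesgue measurable sets. -/
theorem result :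
    (∃ (P : Type) (_ : Preorder P), Nonempty P ∧ ∀ p : P,
      p ∈ OmegaOnePreserved P ∧ p ∈ MartinHolds P Om1 ∧
        p ∈ ContinuumLe P (ℵ_ 2 : Cardinal.{0}).out) ∧
    ((MartinFor Om1 ∧
        ∃ E : (ℵ_ 2 : Cardinal.{0}).out → ℕ → ℕ, Function.Surjective E) ↔
      MartinAxiom ∧ (𝔠 : Cardinal.{0}) = ℵ_ 2) ∧
    (MartinAxiom → (𝔠 : Cardinal.{0}) ≠ ℵ₁ → ¬ HasMonotoneBorelHull LebesgueSets) := by
  have hborel : (inferInstance : MeasurableSpace ℝ) = borel ℝ := BorelSpace.measurable_eq
  have hE : (∃ E : (ℵ_ 2 : Cardinal.{0}).out → ℕ → ℕ, Function.Surjective E) ↔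
      (𝔠 : Cardinal.{0}) ≤ ℵ_ 2 := by
    have h1 : #(ℕ → ℕ) = (𝔠 : Cardinal.{0}) := by
      simp
    constructor
    · rintro ⟨E, hE⟩
      have h2 := mk_le_of_surjective hE
      rwa [h1, mk_out] at h2
    · intro h
      rw [← h1, ← mk_out (ℵ_ 2)] at h
      obtain ⟨e⟩ := h
      exact ⟨Function.invFun e, Function.invFun_surjective e.injective⟩
  have h12 : (ℵ₁ : Cardinal.{0}) < ℵ_ 2 := aleph_lt_aleph.2 (by norm_num)
  refine ⟨Pool.Agent.W910.FC.exists_forcing, ?_, ?_⟩
  · rw [hE, martinFor_om1_iff]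
    constructor
    · rintro ⟨h1, h2⟩
      refine ⟨martin_of (h := h2) h1, le_antisymm h2 ?_⟩
      have h3 := Order.succ_le_of_lt (aleph_one_lt h1)
      have h4 : Order.succ (ℵ₁ : Cardinal.{0}) = ℵ_ 2 := by
        rw [succ_aleph]
        norm_num
      rwa [h4] at h3
    · rintro ⟨h1, h2⟩
      exact ⟨aleph_one_of h1 (by rw [h2]; exact h12), h2.le⟩
  · rintro hMA hc ⟨ψ, h1, h2⟩
    have h0 : (ℵ₁ : Cardinal.{0}) < 𝔠 := lt_of_le_of_ne aleph_one_le_continuum (Ne.symm hc)
    refine Pool.Agent.W910.Hull.no_hull (aleph_one_of hMA h0) ψ (fun A hA => ?_)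
      fun A B hA hB => h2 A hA B hB
    obtain ⟨h3, h4, h5⟩ := h1 A hA
    rw [← hborel] at h3
    exact ⟨h3, h4, h5⟩

end Pool.Agent.Results.MP_97b08f_lc.NoHullUnderMA
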